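import Mathlib
import Pool.Agent.Y272.GA.Bas

/-!
# Project GA, statement S_PUSH: distortion of the iterates along a slow curve of polynomials

Adaptation of `Pool.Agent.Y261.CA.Push`.
-/

set_option autoImplicit false

open Set Filter Metric MeasureTheory

namespace Pool.Agent.Y98.GA

open Pool.Agent.TH279.MD Pool.Agent.Y298.SH Pool.Agent.Y298.SH.CD Pool.Agent.Y272.GA

theorem t : S_PUSH := by
  intro d c₁ γ w ρ κ r m n a b hd hρ _ hol hκ hr hr1 hmn hbase ha hb hA hB hR hx3 hsum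
  have hdR : (2 : ℝ) ≤ d := by exact_mod_cast hd
  have hγ : ∀ z ∈ ball w ρ, DifferentiableAt ℂ γ z := fun z hz =>
    hol.differentiableAt (isOpen_ball.mem_nhds hz)
  have hww : w ∈ ball w ρ := mem_ball_self hρ
  have hr0 : 0 ≤ r := (mul_nonneg (Kd_pos d).le (norm_nonneg _)).trans (hr w hww)
  have hκ0 : 0 ≤ κ := (mul_nonneg (Kd_pos d).le (norm_nonneg _)).trans (hκ w hww)
  have hpart : ∀ j, j ≤ n → ∑ i ∈ Finset.Ico m j, (16 * d * a i + 4 * b i) ≤ 1 / 8 := fun j hj =>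
    (Finset.sum_le_sum_of_subset_of_nonneg (Finset.Ico_subset_Ico_right hj) fun i _ _ => by
      have := ha i
      have := hb i
      positivity).trans hsum
  have key : ∀ j, m ≤ j → j ≤ n → ∀ w' ∈ ball w ρ, ‖deriv (GG d γ j) w' - DD d γ j w‖ ≤
      (1 / 16 + ∑ i ∈ Finset.Ico m j, (16 * d * a i + 4 * b i)) * ‖DD d γ j w‖ := by
    intro j hmj
    induction j, hmj using Nat.le_induction with
    | base =>
      intro _ w' hw'
      simpa using hbase w' hw'
    | succ j hmj ih =>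
      intro hjn w' hw'
      have ih' := ih (by omega)
      have hp := hpart (j + 1) hjn
      rw [Finset.sum_Ico_succ_top hmj] at hp ⊢
      set η := ∑ i ∈ Finset.Ico m j, (16 * d * a i + 4 * b i) with hη
      have hη0 : 0 ≤ η := Finset.sum_nonneg fun i _ => by
        have := ha i
        have := hb i
        positivity
      have haj := ha j
      have hbj := hb j
      have hda : 16 * d * a j ≤ 1 / 8 := by linarith
      have ha1 : a j ≤ 1 / 256 := by nlinarith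
      have hη1 : 1 / 16 + η ≤ 1 / 4 := by
        have : 0 ≤ 16 * d * a j := by positivity
        linarith
      set Dj := DD d γ j w with hDj
      set x := GG d γ j w with hx
      have hx3' : ‖x‖ ≤ 3 := hx3 j hmj (by omega)
      have hG' : ∀ z ∈ ball w ρ, ‖deriv (GG d γ j) z‖ ≤ 5 / 4 * ‖Dj‖ := by
        intro z hz
        calc ‖deriv (GG d γ j) z‖ = ‖(deriv (GG d γ j) z - Dj) + Dj‖ := by congr 1; ring
          _ ≤ ‖deriv (GG d γ j) z - Dj‖ + ‖Dj‖ := norm_add_le _ _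
          _ ≤ 1 / 4 * ‖Dj‖ + ‖Dj‖ := by
            have h1 := ih' z hz
            have h2 : (1 / 16 + η) * ‖Dj‖ ≤ 1 / 4 * ‖Dj‖ := by gcongr
            linarith
          _ = 5 / 4 * ‖Dj‖ := by ring
      have hwρ : ‖w' - w‖ ≤ ρ := by
        rw [← dist_eq_norm]
        exact (mem_ball.1 hw').le
      have hmv : ‖GG d γ j w' - x‖ ≤ (5 / 4 * a j) * ‖x‖ := by
        have h1 := (convex_ball w ρ).norm_image_sub_le_of_norm_deriv_le (𝕜 := ℂ) (f := GG d γ j)
          (fun z hz => differentiableAt_GG (hγ z hz) j) hG' (mem_ball_self hρ) hw'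
        have h3 := hA j hmj (by omega)
        calc ‖GG d γ j w' - x‖ ≤ 5 / 4 * ‖Dj‖ * ‖w' - w‖ := h1
          _ ≤ 5 / 4 * ‖Dj‖ * ρ := by gcongr
          _ = 5 / 4 * (‖Dj‖ * ρ) := by ring
          _ ≤ 5 / 4 * (a j * ‖x‖) := by gcongr
          _ = _ := by ring
      set q := 5 / 4 * a j with hq
      have hq0 : 0 ≤ q := by positivity
      have hum : ‖GG d γ j w'‖ ≤ ‖x‖ * (1 + q) := by
        calc ‖GG d γ j w'‖ = ‖(GG d γ j w' - x) + x‖ := by congr 1; ring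
          _ ≤ ‖GG d γ j w' - x‖ + ‖x‖ := norm_add_le _ _
          _ ≤ _ := by linarith
      have hx4 : ‖x‖ ≤ 4 := by linarith
      have hx4' : ‖GG d γ j w'‖ ≤ 4 := by
        refine hum.trans ?_
        have : 1 + q ≤ 4 / 3 := by rw [hq]; linarith
        nlinarith [norm_nonneg x]
      have hxm : ‖x‖ ≤ ‖x‖ * (1 + q) := by nlinarith [norm_nonneg x]
      have h1 := pow_sub_le (GG d γ j w') x hum hxm (d - 1)
      have hd1 : ((d - 1 : ℕ) : ℝ) = d - 1 := by
        rw [Nat.cast_sub (by omega)]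
        simp
      have h2 : (1 + q) ^ (d - 1 - 1) ≤ 3 / 2 := by
        have h3 : ((d - 1 - 1 : ℕ) : ℝ) * q ≤ 1 / 4 := by
          have h4 : ((d - 1 - 1 : ℕ) : ℝ) ≤ d := by exact_mod_cast (by omega : d - 1 - 1 ≤ d)
          calc ((d - 1 - 1 : ℕ) : ℝ) * q ≤ d * q := by gcongr
            _ = 5 / 64 * (16 * d * a j) := by rw [hq]; ring
            _ ≤ 1 / 4 := by linarith
        have h5 := pow_up hq0 (n := d - 1 - 1) (by linarith)
        linarith
      have h4 : ‖x‖ ^ (d - 1 - 1) * ‖x‖ = ‖x‖ ^ (d - 1) := by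
        rw [← pow_succ]
        congr 1
        omega
      have h5 : ‖GG d γ j w' ^ (d - 1) - x ^ (d - 1)‖ ≤ (d - 1) * (15 / 8 * a j) * ‖x‖ ^ (d - 1) := by
        refine h1.trans ?_
        rw [hd1]
        have hd0 : (0 : ℝ) ≤ d - 1 := by linarith
        calc ((d : ℝ) - 1) * (‖x‖ * (1 + q)) ^ (d - 1 - 1) * ‖GG d γ j w' - x‖
            ≤ (d - 1) * (‖x‖ ^ (d - 1 - 1) * (3 / 2)) * (q * ‖x‖) := by
              rw [mul_pow]
              gcongr
          _ = (d - 1) * (3 / 2 * q) * (‖x‖ ^ (d - 1 - 1) * ‖x‖) := by ring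
          _ = _ := by rw [h4, hq]; ring
      -- the two values of the derivative
      set Q := dF d (γ w) x with hQ
      have hDQ : DD d γ (j + 1) w = Q * Dj := DD_succ γ j w
      have hX0 : 0 ≤ ‖x‖ ^ (d - 1) := by positivity
      have hrx : 4 * r ≤ ‖x‖ ^ (d - 1) := hR j hmj (by omega)
      have hQlow : (d - 1 / 4) * ‖x‖ ^ (d - 1) ≤ ‖Q‖ := by
        have e1 := norm_dF_sub_pow (γ w) c₁ (z := x) hx4
        have e2 : ‖(d : ℂ) * x ^ (d - 1)‖ ≤ ‖Q‖ + ‖Q - (d : ℂ) * x ^ (d - 1)‖ := by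
          have e3 := norm_sub_le Q (Q - (d : ℂ) * x ^ (d - 1))
          rwa [sub_sub_cancel] at e3
        rw [norm_mul, norm_pow, Complex.norm_natCast] at e2
        have e4 := e1.trans (hr w hww)
        linarith
      have hκj : κ ≤ b j * (‖Q‖ * ‖Dj‖) := by
        have := hB j hmj (by omega)
        rwa [hDQ, norm_mul] at this
      have hAj : ‖Dj‖ * ρ ≤ a j * ‖x‖ := hA j hmj (by omega)
      have hg : Kd d * ‖γ w' - γ w‖ ≤ κ * ρ := by
        have e1 := (convex_ball w ρ).norm_image_sub_le_of_norm_deriv_le (𝕜 := ℂ) (f := γ)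
          (C := κ / Kd d) hγ (fun z hz => by
            rw [le_div_iff₀ (Kd_pos d), mul_comm]
            exact hκ z hz) (mem_ball_self hρ) hw'
        calc Kd d * ‖γ w' - γ w‖ ≤ Kd d * (κ / Kd d * ‖w' - w‖) :=
              mul_le_mul_of_nonneg_left e1 (Kd_pos d).le
          _ = κ * ‖w' - w‖ := by
              have := (Kd_pos d).ne'
              field_simp
          _ ≤ κ * ρ := by gcongr
      have hQQ : ‖dF d (γ w') (GG d γ j w') - Q‖ ≤
          d * ((d - 1) * (15 / 8 * a j) * ‖x‖ ^ (d - 1)) + κ * ρ + r * (q * ‖x‖) := by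
        have e1 := norm_dF_sub (γ w') (γ w) (z := GG d γ j w') hx4'
        have e2 := norm_dF_lip (γ w) c₁ (z := GG d γ j w') (z' := x) hx4' hx4
        have e3 : dF d (γ w') (GG d γ j w') - Q =
            d * (GG d γ j w' ^ (d - 1) - x ^ (d - 1)) +
            (dF d (γ w') (GG d γ j w') - dF d (γ w) (GG d γ j w')) +
            ((dF d (γ w) (GG d γ j w') - d * GG d γ j w' ^ (d - 1)) -
              (dF d (γ w) x - d * x ^ (d - 1))) := by
          rw [hQ]
          ring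
        rw [e3]
        refine norm_add₃_le.trans (add_le_add (add_le_add ?_ (e1.trans hg)) (e2.trans ?_))
        · rw [norm_mul, Complex.norm_natCast]
          gcongr
        · exact mul_le_mul (hr w hww) hmv (norm_nonneg _) hr0
      rw [deriv_GG_succ (hγ w' hw'), hDQ]
      have h8 : dF d (γ w') (GG d γ j w') * deriv (GG d γ j) w' +
          ∑ i : Fin (d + 1), deriv γ w' i * GG d γ j w' ^ (i : ℕ) - Q * Dj =
          (dF d (γ w') (GG d γ j w') - Q) * deriv (GG d γ j) w' +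
          Q * (deriv (GG d γ j) w' - Dj) +
          ∑ i : Fin (d + 1), deriv γ w' i * GG d γ j w' ^ (i : ℕ) := by ring
      rw [h8]
      refine (norm_add₃_le).trans ?_
      have h7 : ‖∑ i : Fin (d + 1), deriv γ w' i * GG d γ j w' ^ (i : ℕ)‖ ≤
          b j * (‖Q‖ * ‖Dj‖) :=
        ((norm_pows_le _ hx4').trans (hκ w' hw')).trans hκj
      have h9 : ‖(dF d (γ w') (GG d γ j w') - Q) * deriv (GG d γ j) w'‖ ≤
          (d * ((d - 1) * (15 / 8 * a j) * ‖x‖ ^ (d - 1)) + κ * ρ + r * (q * ‖x‖)) *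
            (5 / 4 * ‖Dj‖) := by
        rw [norm_mul]
        exact mul_le_mul hQQ (hG' w' hw') (norm_nonneg _) ((norm_nonneg _).trans hQQ)
      have h10 : ‖Q * (deriv (GG d γ j) w' - Dj)‖ ≤ ‖Q‖ * ((1 / 16 + η) * ‖Dj‖) := by
        rw [norm_mul]
        gcongr
        exact ih' w' hw'
      rw [norm_mul Q Dj]
      have hP0 : 0 ≤ ‖Q‖ * ‖Dj‖ := by positivity
      -- the three terms
      have k1 : d * ((d - 1) * (15 / 8 * a j) * ‖x‖ ^ (d - 1)) * (5 / 4 * ‖Dj‖) ≤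
          4 * d * a j * (‖Q‖ * ‖Dj‖) := by
        have e1 : (d - 1) * ‖x‖ ^ (d - 1) ≤ ‖Q‖ := by
          refine le_trans (mul_le_mul_of_nonneg_right ?_ hX0) hQlow
          linarith
        calc d * ((d - 1) * (15 / 8 * a j) * ‖x‖ ^ (d - 1)) * (5 / 4 * ‖Dj‖)
            = (75 / 32 * d * a j * ‖Dj‖) * ((d - 1) * ‖x‖ ^ (d - 1)) := by ring
          _ ≤ (75 / 32 * d * a j * ‖Dj‖) * ‖Q‖ := by gcongr
          _ = 75 / 32 * (d * a j * (‖Q‖ * ‖Dj‖)) := by ring
          _ ≤ 4 * (d * a j * (‖Q‖ * ‖Dj‖)) := by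
              refine mul_le_mul_of_nonneg_right (by norm_num) (by positivity)
          _ = _ := by ring
      have k2 : κ * ρ * (5 / 4 * ‖Dj‖) ≤ b j * (‖Q‖ * ‖Dj‖) := by
        calc κ * ρ * (5 / 4 * ‖Dj‖) = 5 / 4 * κ * (‖Dj‖ * ρ) := by ring
          _ ≤ 5 / 4 * κ * (a j * ‖x‖) := by gcongr
          _ ≤ 5 / 4 * κ * (1 / 256 * 3) := by gcongr
          _ ≤ 1 * κ := by nlinarith
          _ ≤ _ := by rw [one_mul]; exact hκj
      have k3 : r * (q * ‖x‖) * (5 / 4 * ‖Dj‖) ≤ a j * (‖Q‖ * ‖Dj‖) := by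
        have e1 : r ≤ ‖Q‖ / 4 := by
          have e2 : 1 * ‖x‖ ^ (d - 1) ≤ ‖Q‖ :=
            le_trans (mul_le_mul_of_nonneg_right (by linarith) hX0) hQlow
          linarith
        have e3 : r ≤ ‖Q‖ / 7 := by
          have e2 : (7 / 4) * ‖x‖ ^ (d - 1) ≤ ‖Q‖ :=
            le_trans (mul_le_mul_of_nonneg_right (by linarith) hX0) hQlow
          linarith
        calc r * (q * ‖x‖) * (5 / 4 * ‖Dj‖) = 25 / 16 * a j * ‖Dj‖ * (r * ‖x‖) := by
              rw [hq]; ring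
          _ ≤ 25 / 16 * a j * ‖Dj‖ * (‖Q‖ / 7 * 3) := by gcongr
          _ = 75 / 112 * (a j * (‖Q‖ * ‖Dj‖)) := by ring
          _ ≤ 1 * (a j * (‖Q‖ * ‖Dj‖)) := by
              refine mul_le_mul_of_nonneg_right (by norm_num) (by positivity)
          _ = _ := one_mul _
      have k4 : a j * (‖Q‖ * ‖Dj‖) ≤ d * a j * (‖Q‖ * ‖Dj‖) := by
        have : 0 ≤ a j * (‖Q‖ * ‖Dj‖) := by positivity
        nlinarith
      have k5 : 0 ≤ b j * (‖Q‖ * ‖Dj‖) := by positivity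
      have k6 : 0 ≤ d * a j * (‖Q‖ * ‖Dj‖) := by positivity
      calc _ ≤ (d * ((d - 1) * (15 / 8 * a j) * ‖x‖ ^ (d - 1)) + κ * ρ + r * (q * ‖x‖)) *
            (5 / 4 * ‖Dj‖) + ‖Q‖ * ((1 / 16 + η) * ‖Dj‖) + b j * (‖Q‖ * ‖Dj‖) :=
            add_le_add (add_le_add h9 h10) h7
        _ = d * ((d - 1) * (15 / 8 * a j) * ‖x‖ ^ (d - 1)) * (5 / 4 * ‖Dj‖) +
            κ * ρ * (5 / 4 * ‖Dj‖) + r * (q * ‖x‖) * (5 / 4 * ‖Dj‖) +
            (1 / 16 + η) * (‖Q‖ * ‖Dj‖) + b j * (‖Q‖ * ‖Dj‖) := by ring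
        _ ≤ 4 * d * a j * (‖Q‖ * ‖Dj‖) + b j * (‖Q‖ * ‖Dj‖) + a j * (‖Q‖ * ‖Dj‖) +
            (1 / 16 + η) * (‖Q‖ * ‖Dj‖) + b j * (‖Q‖ * ‖Dj‖) := by linarith
        _ ≤ (1 / 16 + (η + (16 * d * a j + 4 * b j))) * (‖Q‖ * ‖Dj‖) := by nlinarith
  intro w' hw'
  refine (key n hmn le_rfl w' hw').trans ?_
  refine mul_le_mul_of_nonneg_right ?_ (norm_nonneg _)
  linarith

end Pool.Agent.Y98.GA
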